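import Mathlib
import Pool.Agent.Y215.SP.Off
import Pool.Agent.V1153.UR.Rec

/-!
Values of forms at linear combinations, heights of products of multipliers, roots of unity, curves.
-/

set_option autoImplicit false

namespace Pool.Agent.V11197.SM

open MvPolynomial Pool.Agent.V1153.UG
open Pool.Agent.Helper259.AbsHt Pool.Agent.Y215.SP

/-! ### The values of forms at linear combinations -/

/-- a monomial of degree `δ` is a product of `δ` variables -/
theorem monomial_list {σ : Type} (m : σ →₀ ℕ) {δ : ℕ} (h : m.degree = δ) :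
    ∃ l : Fin δ → σ, ∀ (R : Type) [CommRing R] (x : σ → R),
      (m.prod fun i k => x i ^ k) = ∏ a, x (l a) := by
  classical
  have hlen : (Finsupp.toMultiset m).toList.length = δ := by
    rw [Multiset.length_toList, Finsupp.card_toMultiset, ← h]
    rfl
  subst hlen
  refine ⟨fun a => (Finsupp.toMultiset m).toList.get a, fun R _ x => ?_⟩
  have h1 : (((Finsupp.toMultiset m).toList).map x).prod =
      ∏ a, x ((Finsupp.toMultiset m).toList.get a) := by
    rw [← List.prod_ofFn]
    congr 1
    conv_lhs => rw [← List.ofFn_get (Finsupp.toMultiset m).toList]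
    rw [List.map_ofFn]
    rfl
  rw [← h1, ← Multiset.prod_coe, ← Multiset.map_coe, Multiset.coe_toList, Finsupp.toMultiset_map,
    Finsupp.prod_toMultiset, Finsupp.prod_mapDomain_index (fun b => pow_zero b)
      (fun b k l => pow_add b k l)]

/-- the value of a form at a linear combination is a combination of the products of the
multipliers -/
theorem polar {k : Type} [Field k] {n r : ℕ} (F : MvPolynomial (Fin (n + 1)) k) {δ : ℕ}
    (hF : F.IsHomogeneous δ) (L : Type) [Field L] [Algebra k L] (v : Fin r → Fin (n + 1) → L) :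
    ∃ w : (Fin δ → Fin r) → L, ∀ t : Fin r → L,
      aeval (fun i => ∑ j, t j * v j i) F = ∑ f : Fin δ → Fin r, (∏ a, t (f a)) * w f := by
  classical
  have hm : ∀ m : Fin (n + 1) →₀ ℕ, ∃ w : (Fin δ → Fin r) → L, m ∈ F.support → ∀ t : Fin r → L,
      (m.prod fun i k => (∑ j, t j * v j i) ^ k) =
        ∑ f : Fin δ → Fin r, (∏ a, t (f a)) * w f := by
    intro m
    by_cases hm : m ∈ F.support
    · have h1 : m.degree = δ := by
        have h2 := hF (mem_support_iff.1 hm)
        rw [← h2, Finsupp.degree_eq_weight_one]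
        rfl
      obtain ⟨l, hl⟩ := monomial_list m h1
      refine ⟨fun f => ∏ a, v (f a) (l a), fun _ t => ?_⟩
      rw [hl L fun i => ∑ j, t j * v j i, Finset.prod_univ_sum, Fintype.piFinset_univ]
      refine Finset.sum_congr rfl fun f _ => ?_
      rw [Finset.prod_mul_distrib]
    · exact ⟨0, fun h => absurd h hm⟩
  choose w hw using hm
  refine ⟨fun f => ∑ m ∈ F.support, algebraMap k L (F.coeff m) * w m f, fun t => ?_⟩
  rw [aeval_def, eval₂_eq]
  have h1 : ∀ m ∈ F.support, algebraMap k L (F.coeff m) *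
      ∏ i ∈ m.support, (∑ j, t j * v j i) ^ m i =
        ∑ f : Fin δ → Fin r, (∏ a, t (f a)) * (algebraMap k L (F.coeff m) * w m f) := by
    intro m hm
    have h2 := hw m hm t
    rw [Finsupp.prod] at h2
    rw [h2, Finset.mul_sum]
    exact Finset.sum_congr rfl fun f _ => by ring
  rw [Finset.sum_congr rfl h1, Finset.sum_comm]
  refine Finset.sum_congr rfl fun f _ => ?_
  rw [Finset.mul_sum]

/-- vectors of roots of unity have height zero -/
theorem height_tors {ι : Type} [Finite ι] (t : ι → Qbar) (m : ℕ) (hm : 0 < m)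
    (ht : ∀ i, t i ^ m = 1) : absLogHeight t = 0 := by
  unfold absLogHeight
  set x : ι → fieldOf t := fun i => ⟨t i, IntermediateField.subset_adjoin ℚ _
    (Set.mem_range_self i)⟩ with hx
  have h1 : x ^ m = 1 := by
    funext i
    apply Subtype.ext
    simp only [hx, Pi.pow_apply, Pi.one_apply]
    push_cast
    exact ht i
  have h2 : Height.logHeight (x ^ m) = m * Height.logHeight x := Height.logHeight_pow x m
  rw [h1, Height.logHeight_one] at h2
  have h3 : (m : ℝ) ≠ 0 := by exact_mod_cast hm.ne'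
  have h4 : Height.logHeight x = 0 := by
    rcases mul_eq_zero.1 h2.symm with h | h
    · exact absurd h h3
    · exact h
  rw [h4, zero_div]

/-- the height of the vector of all products of `δ` multipliers -/
theorem height_prod {r : ℕ} (t : Fin r → Qbar) (ht : t ≠ 0) (δ : ℕ) :
    absLogHeight (fun f : Fin δ → Fin r => ∏ a, t (f a)) ≤ δ * absLogHeight t := by
  classical
  obtain ⟨j0, hj0⟩ := Function.ne_iff.1 ht
  have hj0' : t j0 ≠ 0 := hj0
  induction δ with
  | zero =>
    have h1 : absLogHeight (fun f : Fin 0 → Fin r => ∏ a, t (f a)) ≤ 0 := by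
      have h2 := absLogHeight_comp_le (fun _ : Fin 0 → Fin r => (0 : Fin 1))
        (fun _ : Fin 1 => (1 : Qbar))
      have h3 : absLogHeight (fun _ : Fin 1 => (1 : Qbar)) = 0 :=
        height_tors _ 1 one_pos fun _ => by rw [one_pow]
      have h4 : (fun f : Fin 0 → Fin r => ∏ a, t (f a)) =
          (fun _ : Fin 1 => (1 : Qbar)) ∘ (fun _ : Fin 0 → Fin r => (0 : Fin 1)) := by
        funext f
        simp
      rw [h4]
      exact h2.trans h3.le
    simpa using h1
  | succ δ ih =>
    have h0 : (fun f : Fin δ → Fin r => ∏ a, t (f a)) ≠ 0 := by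
      intro h
      have h1 := congrFun h fun _ => j0
      have h2 : (∏ _a : Fin δ, t j0) = 0 := h1
      obtain ⟨_, _, h3⟩ := Finset.prod_eq_zero_iff.1 h2
      exact hj0' h3
    have h1 := absLogHeight_segre ht h0
    have h2 := absLogHeight_comp_le
      (fun f : Fin (δ + 1) → Fin r => ((f 0, fun a => f a.succ) : Fin r × (Fin δ → Fin r)))
      (fun p : Fin r × (Fin δ → Fin r) => t p.1 * ∏ a, t (p.2 a))
    have h3 : (fun f : Fin (δ + 1) → Fin r => ∏ a, t (f a)) =
        (fun p : Fin r × (Fin δ → Fin r) => t p.1 * ∏ a, t (p.2 a)) ∘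
          (fun f : Fin (δ + 1) → Fin r => (f 0, fun a => f a.succ)) := by
      funext f
      simp only [Function.comp_apply]
      rw [Fin.prod_univ_succ]
    rw [h3]
    refine h2.trans ?_
    rw [h1]
    push_cast
    linarith

/-! ### Roots of unity -/

theorem roots_infinite : {z : ℂ | ∃ q : ℕ, 0 < q ∧ z ^ q = 1}.Infinite := by
  have h1 : Function.Injective fun q : ℕ =>
      Complex.exp (2 * Real.pi * Complex.I / ((q + 1 : ℕ) : ℂ)) := by
    intro a b hab
    have ha := Complex.isPrimitiveRoot_exp (a + 1) (by omega)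
    have hb := Complex.isPrimitiveRoot_exp (b + 1) (by omega)
    have hab' : Complex.exp (2 * Real.pi * Complex.I / ((a + 1 : ℕ) : ℂ)) =
      Complex.exp (2 * Real.pi * Complex.I / ((b + 1 : ℕ) : ℂ)) := hab
    rw [hab'] at ha
    have := ha.unique hb
    omega
  refine (Set.infinite_range_of_injective h1).mono ?_
  rintro _ ⟨q, rfl⟩
  exact ⟨q + 1, by omega, (Complex.isPrimitiveRoot_exp (q + 1) (by omega)).pow_eq_one⟩

/-- complex roots of unity come from `Qbar` -/
theorem lift_root (ι : Qbar →+* ℂ) {z : ℂ} {q : ℕ} (hq : 0 < q) (hz : z ^ q = 1) :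
    ∃ y : Qbar, ι y = z ∧ y ^ q = 1 := by
  let _ : Algebra Qbar ℂ := ι.toAlgebra
  have hint : IsIntegral Qbar z := by
    refine ⟨Polynomial.X ^ q - Polynomial.C 1, Polynomial.monic_X_pow_sub_C 1 hq.ne', ?_⟩
    rw [Polynomial.eval₂_sub, Polynomial.eval₂_pow, Polynomial.eval₂_X, Polynomial.eval₂_C,
      map_one, hz, sub_self]
  obtain ⟨y, hy⟩ := minpoly.mem_range_of_degree_eq_one Qbar z
    (IsAlgClosed.degree_eq_one_of_irreducible _ (minpoly.irreducible hint))
  refine ⟨y, hy, ?_⟩
  apply ι.injective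
  rw [map_pow, map_one]
  have hy' : ι y = z := hy
  rw [hy', hz]

/-- infinitely many points of a curve -/
theorem curve_infinite {n N : ℕ} {I : Ideal (MvPolynomial (Fin (n + 1)) ℂ)}
    {Q G : MvPolynomial (Fin (n + 1)) ℂ} {P : Fin (n + 1) → Polynomial ℂ} (hP : GmBdd I Q N P)
    {t : ℂ} (ht : eval (fun j => (P j).eval t) G ≠ 0) {A : Set ℂ} (hA : A.Infinite) :
    {p : Projectivization ℂ (Fin (n + 1) → ℂ) | ∃ z ∈ A,
      ∃ h0 : (fun j => (P j).eval z) ≠ 0, eval (fun j => (P j).eval z) G ≠ 0 ∧
        p = Projectivization.mk ℂ _ h0}.Infinite := by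
  classical
  intro hfin
  have hG0 : (aeval P G : Polynomial ℂ) ≠ 0 := by
    intro h0
    apply ht
    rw [← eval_aeval, h0, Polynomial.eval_zero]
  obtain ⟨s1, s2, j1, k1, hnc⟩ := hP.nc
  obtain ⟨l, hl⟩ : ∃ l, P l ≠ 0 := by
    by_contra hcon
    push Not at hcon
    apply hnc
    rw [hcon j1, hcon k1]
  let S : Set ℂ := {z | z ∈ A ∧ (aeval P G * P l : Polynomial ℂ).eval z ≠ 0}
  have hSi : S.Infinite := by
    intro hS
    apply hA
    refine (hS.union (aeval P G * P l : Polynomial ℂ).roots.toFinset.finite_toSet).subset ?_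
    intro z hz
    by_cases h2 : (aeval P G * P l : Polynomial ℂ).eval z = 0
    · right
      rw [Finset.mem_coe, Multiset.mem_toFinset, Polynomial.mem_roots (mul_ne_zero hG0 hl)]
      exact h2
    · exact Or.inl ⟨hz, h2⟩
  have hne : ∀ z ∈ S, (fun j => (P j).eval z) ≠ 0 := by
    rintro z ⟨-, hh⟩ h0
    rw [Polynomial.eval_mul] at hh
    exact right_ne_zero_of_mul hh (congrFun h0 l)
  let f : ℂ → Projectivization ℂ (Fin (n + 1) → ℂ) := fun z =>
    if h0 : (fun j => (P j).eval z) ≠ 0 then Projectivization.mk ℂ _ h0 else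
      Projectivization.mk ℂ (fun _ => 1) (fun h1 => one_ne_zero (congrFun h1 0))
  have hf : Set.MapsTo f S {p : Projectivization ℂ (Fin (n + 1) → ℂ) | ∃ z ∈ A,
      ∃ h0 : (fun j => (P j).eval z) ≠ 0, eval (fun j => (P j).eval z) G ≠ 0 ∧
        p = Projectivization.mk ℂ _ h0} := by
    intro z hz
    have h1 := hz.2
    rw [Polynomial.eval_mul, eval_aeval] at h1
    exact ⟨z, hz.1, hne z hz, left_ne_zero_of_mul h1, dif_pos (hne z hz)⟩
  obtain ⟨p, hp⟩ : ∃ p, (S ∩ f ⁻¹' {p}).Infinite := by
    by_contra hcon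
    push Not at hcon
    apply hSi
    refine (hfin.biUnion fun p _ => hcon p).subset fun h hh => ?_
    exact Set.mem_biUnion (hf hh) ⟨hh, rfl⟩
  obtain ⟨z0, hz0, hf0⟩ := hp.nonempty
  have hf0' : f z0 = p := hf0
  have hcr : ∀ z ∈ S ∩ f ⁻¹' {p}, ∀ j k,
      (P j).eval z * (P k).eval z0 = (P k).eval z * (P j).eval z0 := by
    rintro z ⟨hz, hfz⟩ j k
    have hfz' : f z = p := hfz
    have h1 : f z = f z0 := hfz'.trans hf0'.symm
    have h2 : f z = Projectivization.mk ℂ _ (hne z hz) := dif_pos (hne z hz)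
    have h3 : f z0 = Projectivization.mk ℂ _ (hne z0 hz0) := dif_pos (hne z0 hz0)
    rw [h2, h3, Projectivization.mk_eq_mk_iff'] at h1
    obtain ⟨a, ha⟩ := h1
    have h4 : a * (P j).eval z0 = (P j).eval z := congrFun ha j
    have h5 : a * (P k).eval z0 = (P k).eval z := congrFun ha k
    rw [← h4, ← h5]
    ring
  have hpoly : ∀ j k, P j * Polynomial.C ((P k).eval z0) = P k * Polynomial.C ((P j).eval z0) := by
    intro j k
    rw [← sub_eq_zero]
    by_contra hne0
    refine hp ((Finset.finite_toSet (P j * Polynomial.C ((P k).eval z0) -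
        P k * Polynomial.C ((P j).eval z0)).roots.toFinset).subset ?_)
    intro z hz
    rw [Finset.mem_coe, Multiset.mem_toFinset, Polynomial.mem_roots hne0]
    change Polynomial.eval _ _ = 0
    rw [Polynomial.eval_sub, Polynomial.eval_mul, Polynomial.eval_mul, Polynomial.eval_C,
      Polynomial.eval_C, hcr z hz j k, sub_self]
  obtain ⟨k0, hk0⟩ := Function.ne_iff.1 (hne z0 hz0)
  have hk0' : (P k0).eval z0 ≠ 0 := hk0
  apply hnc
  have h1 : ∀ j s, (P j).eval s * (P k0).eval z0 = (P k0).eval s * (P j).eval z0 := by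
    intro j s
    have h2 := congrArg (Polynomial.eval s) (hpoly j k0)
    rwa [Polynomial.eval_mul, Polynomial.eval_mul, Polynomial.eval_C, Polynomial.eval_C] at h2
  have h2 : (P k0).eval z0 * (P k0).eval z0 *
      ((P j1).eval s1 * (P k1).eval s2 - (P k1).eval s1 * (P j1).eval s2) = 0 := by
    have e1 := h1 j1 s1
    have e2 := h1 k1 s2
    have e3 := h1 k1 s1
    have e4 := h1 j1 s2
    have : (P k0).eval z0 * (P k0).eval z0 *
        ((P j1).eval s1 * (P k1).eval s2 - (P k1).eval s1 * (P j1).eval s2) =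
        ((P j1).eval s1 * (P k0).eval z0) * ((P k1).eval s2 * (P k0).eval z0) -
        ((P k1).eval s1 * (P k0).eval z0) * ((P j1).eval s2 * (P k0).eval z0) := by ring
    rw [this, e1, e2, e3, e4]
    ring
  exact sub_eq_zero.1 ((mul_eq_zero.1 h2).resolve_left (mul_ne_zero hk0' hk0'))

/-- polynomials with Wronskian zero are proportional -/
theorem prop_of_wronskian {L : Type} [Field L] [CharZero L] {a b : Polynomial L} (hb : b ≠ 0)
    (h : Polynomial.derivative a * b = a * Polynomial.derivative b) :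
    ∃ c d : L, d ≠ 0 ∧ Polynomial.C d * a = Polynomial.C c * b := by
  classical
  set g := EuclideanDomain.gcd a b with hg
  have hg0 : g ≠ 0 := fun h0 => hb (EuclideanDomain.gcd_eq_zero_iff.1 h0).2
  obtain ⟨a', ha⟩ := EuclideanDomain.gcd_dvd_left a b
  obtain ⟨b', hb'⟩ := EuclideanDomain.gcd_dvd_right a b
  rw [← hg] at ha hb'
  have hcop : IsCoprime a' b' := by
    have h1 := EuclideanDomain.gcd_eq_gcd_ab a b
    rw [← hg] at h1
    refine ⟨EuclideanDomain.gcdA a b, EuclideanDomain.gcdB a b, ?_⟩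
    apply mul_left_cancel₀ hg0
    generalize EuclideanDomain.gcdA a b = A at h1
    generalize EuclideanDomain.gcdB a b = B at h1
    calc g * (A * a' + B * b') = (g * a') * A + (g * b') * B := by ring
      _ = a * A + b * B := by rw [← ha, ← hb']
      _ = g * 1 := by rw [← h1, mul_one]
  have hw : Polynomial.wronskian a' b' = 0 := by
    unfold Polynomial.wronskian
    apply mul_left_cancel₀ (mul_ne_zero hg0 hg0)
    rw [mul_zero]
    have h2 := h
    rw [ha, hb', Polynomial.derivative_mul, Polynomial.derivative_mul] at h2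
    linear_combination -h2
  obtain ⟨h1, h2⟩ := hcop.wronskian_eq_zero_iff.1 hw
  obtain ⟨α, hα⟩ := Polynomial.natDegree_eq_zero.1
    (Polynomial.derivative_eq_zero.1 h1)
  obtain ⟨β, hβ⟩ := Polynomial.natDegree_eq_zero.1
    (Polynomial.derivative_eq_zero.1 h2)
  refine ⟨α, β, ?_, ?_⟩
  · rintro rfl
    apply hb
    rw [hb', ← hβ, Polynomial.C_0, mul_zero]
  · rw [ha, hb', ← hα, ← hβ]
    ring

end Pool.Agent.V11197.SM
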