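import Mathlib
import Pool.Agent.Y215.SP.Off
import Pool.Agent.Y215.AF.LogHyp
import Pool.Agent.V11197.SM.Bas

/-!
Points of affine varieties which are combinations of given vectors with multipliers of small height.
-/

set_option autoImplicit false

namespace Pool.Agent.V11197.SM

open MvPolynomial Pool.Agent.Helper259.AbsHt Pool.Agent.Y215.SP
open Pool.Agent.Y215.AF (homC homC_sum)
open Pool.Agent.H533R3.SL (cur)
open Pool.Agent.W235.RM (hmg hmg_homog hmg_eval)

theorem aeval_homog {k A σ : Type} [Field k] [CommRing A] [Algebra k A] {G : MvPolynomial σ k}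
    {m : ℕ} (hG : G.IsHomogeneous m) (c : A) (v : σ → A) :
    aeval (fun j => c * v j) G = c ^ m * aeval v G := by
  rw [aeval_def, aeval_def, eval₂_eq, eval₂_eq, Finset.mul_sum]
  refine Finset.sum_congr rfl fun d hd => ?_
  have h2 := hG (MvPolynomial.mem_support_iff.1 hd)
  have h3 : ∏ i ∈ d.support, (c * v i) ^ d i = c ^ m * ∏ i ∈ d.support, v i ^ d i := by
    rw [← h2]
    simp only [mul_pow, Finset.prod_mul_distrib]
    congr 1
    rw [Finset.prod_pow_eq_pow_sum]
    congr 1
    rw [Finsupp.weight_apply, Finsupp.sum]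
    simp
  rw [h3]
  ring

theorem hmg_one {k A : Type} [Field k] [CommRing A] [Algebra k A] {n : ℕ} (d : ℕ)
    (F : MvPolynomial (Fin n) k) (hF : F.totalDegree ≤ d) (x : Fin n → A) :
    aeval (Fin.cons 1 x : Fin (n + 1) → A) (hmg d F) = aeval x F := by
  have h := hmg_eval (algebraMap k A) d F hF 1 x
  simp only [one_mul, one_pow] at h
  rw [aeval_def, aeval_def]
  exact h

theorem sum_homC {L : Type} [CommRing L] {n R : ℕ} (w : Fin R → Fin n → L) (T : Fin R → L) :
    (fun i => ∑ j, (Fin.cons 1 T : Fin (R + 1) → L) j * homC w j i) =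
      (Fin.cons 1 (fun a => ∑ j, T j * w j a) : Fin (n + 1) → L) := by
  funext i
  rw [Fin.sum_univ_succ]
  refine Fin.cases ?_ (fun i => ?_) i
  · simp [homC]
  · simp [homC]

theorem pt_homC {L : Type} [Field L] (ι : Qbar →+* L) {n R : ℕ} (w : Fin R → Fin n → L)
    (T : Fin R → Qbar) :
    pt ι (homC w) (Fin.cons 1 T : Fin (R + 1) → Qbar) =
      (Fin.cons 1 (fun a => ∑ j, ι (T j) * w j a) : Fin (n + 1) → L) := by
  rw [← sum_homC]
  funext i
  unfold pt
  refine Finset.sum_congr rfl fun j _ => ?_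
  congr 1
  refine Fin.cases ?_ (fun j => ?_) j
  · simp
  · simp

theorem cons_ne {L : Type} [Field L] {n : ℕ} (y : Fin n → L) :
    (Fin.cons 1 y : Fin (n + 1) → L) ≠ 0 := fun h => by
  have := congrFun h 0
  simp at this

theorem mk_cons_inj {L : Type} [Field L] {n : ℕ} : Function.Injective fun y : Fin n → L =>
    Projectivization.mk L (Fin.cons 1 y : Fin (n + 1) → L) (cons_ne y) := by
  intro y z h
  have h' : Projectivization.mk L (Fin.cons 1 y : Fin (n + 1) → L) (cons_ne y) =
    Projectivization.mk L (Fin.cons 1 z : Fin (n + 1) → L) (cons_ne z) := h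
  rw [Projectivization.mk_eq_mk_iff'] at h'
  obtain ⟨a, ha⟩ := h'
  have h0 := congrFun ha 0
  simp only [Pi.smul_apply, Fin.cons_zero, smul_eq_mul, mul_one] at h0
  funext i
  have h1 := congrFun ha i.succ
  simp only [Pi.smul_apply, Fin.cons_succ, smul_eq_mul] at h1
  rw [← h1, h0, one_mul]

/-- the affine points `∑ T_j w_j` on `F = 0` and off `G = 0`, for algebraic numbers `T_j` such that
`(1 : T_1 : … : T_R)` has height less than `ε` -/
def affOff {k L : Type} [Field k] [Field L] [Algebra k L] {n N R : ℕ} (ι : Qbar →+* L)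
    (F : Fin N → MvPolynomial (Fin n) k) (G : MvPolynomial (Fin n) k) (ε : ℝ)
    (w : Fin R → Fin n → L) : Set (Fin n → L) :=
  {y | ∃ T : Fin R → Qbar, absLogHeight (Fin.cons 1 T : Fin (R + 1) → Qbar) < ε ∧
    (∀ a, y a = ∑ j, ι (T j) * w j a) ∧ (∀ i, aeval y (F i) = 0) ∧ aeval y G ≠ 0}

theorem cur_smul {L : Type} [Field L] {n r : ℕ} (a : L) (c : Fin r → Fin (n + 1) → L)
    (l : Fin r → ℕ) : cur (fun j i => a * c j i) l = fun i => Polynomial.C a * cur c l i := by
  funext i
  unfold cur
  rw [Finset.mul_sum]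
  refine Finset.sum_congr rfl fun j _ => ?_
  rw [Polynomial.C_mul, mul_assoc]

theorem card_affOff {k : Type} [Field k] {n N R : ℕ} (F : Fin N → MvPolynomial (Fin n) k) (d : ℕ)
    (hd : 1 ≤ d) (hF : ∀ i, (F i).totalDegree ≤ d) (G : MvPolynomial (Fin n) k) {L : Type}
    [Field L] [Algebra k L]
    (hG : ∀ (c : Fin R → Fin n → L) (l : Fin (R + 1) → ℕ),
        (∀ i, aeval (cur (homC c) l) (hmg d (F i)) = 0) →
        (∃ i i', cur (homC c) l i * Polynomial.C (∑ j, homC c j i') ≠
          cur (homC c) l i' * Polynomial.C (∑ j, homC c j i)) →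
        aeval (fun i => ∑ j, c j i) G = 0)
    (ι : Qbar →+* L) (w : Fin R → Fin n → L) :
    (affOff ι F G (epsn ((d + 1) ^ (R + 1)) / d) w).encard ≤
      (2 ^ R * M0 ((d + 1) ^ (R + 1)) d (R + 1) : ℕ) := by
  classical
  set ε := epsn ((d + 1) ^ (R + 1)) / d with hε
  let mask : Finset (Fin R) → Fin R → Fin n → L := fun A j i => if j ∈ A then w j i else 0
  let P : Fin N → MvPolynomial (Fin (n + 1)) k := fun i => hmg d (F i)
  have hP : ∀ i, ∃ e, e ≤ d ∧ (P i).IsHomogeneous e := fun i => ⟨d, le_rfl, hmg_homog d _ (hF i)⟩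
  let Gh : MvPolynomial (Fin (n + 1)) k := X 0 * hmg G.totalDegree G
  have hGh : Gh.IsHomogeneous (1 + G.totalDegree) :=
    (isHomogeneous_X k 0).mul (hmg_homog _ _ le_rfl)
  have hGh1 : ∀ y : Fin n → L, aeval (Fin.cons 1 y : Fin (n + 1) → L) Gh = aeval y G := by
    intro y
    show aeval _ (X 0 * hmg G.totalDegree G) = _
    rw [map_mul, aeval_X, Fin.cons_zero, one_mul, hmg_one _ _ le_rfl]
  have hcov : affOff ι F G ε w ⊆ ⋃ A : Finset (Fin R), {y : Fin n → L |
      Projectivization.mk L (Fin.cons 1 y : Fin (n + 1) → L) (cons_ne y) ∈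
        Off0 ι P Gh ε (homC (mask A))} := by
    rintro y ⟨T, hT, hy, hyF, hyG⟩
    let A := Finset.univ.filter (fun j => T j ≠ 0)
    let T' : Fin R → Qbar := fun j => if T j ≠ 0 then T j else 1
    let σ : Fin (R + 1) → Fin (R + 1) := Fin.cons 0 (fun j => if T j ≠ 0 then j.succ else 0)
    have hσ : (Fin.cons 1 T' : Fin (R + 1) → Qbar) = (Fin.cons 1 T : Fin (R + 1) → Qbar) ∘ σ := by
      funext j
      refine Fin.cases ?_ (fun j => ?_) j
      · simp [σ]
      · by_cases hj : T j = 0
        · simp [σ, T', hj]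
        · simp [σ, T', hj]
    have hpt : pt ι (homC (mask A)) (Fin.cons 1 T' : Fin (R + 1) → Qbar) =
        (Fin.cons 1 y : Fin (n + 1) → L) := by
      rw [pt_homC]
      congr 1
      funext a
      rw [hy a]
      refine Finset.sum_congr rfl fun j _ => ?_
      by_cases hj : T j = 0
      · simp [mask, A, hj]
      · simp [mask, A, T', hj]
    rw [Set.mem_iUnion]
    refine ⟨A, Fin.cons 1 T', fun j => ?_, ?_, fun i => ?_, ?_, ?_⟩
    · refine Fin.cases ?_ (fun j => ?_) j
      · rw [Fin.cons_zero]; exact one_ne_zero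
      · rw [Fin.cons_succ]
        by_cases hj : T j = 0
        · have : T' j = 1 := if_neg (by simpa using hj)
          rw [this]; exact one_ne_zero
        · have : T' j = T j := if_pos hj
          rw [this]; exact hj
    · rw [hσ]
      exact lt_of_le_of_lt (absLogHeight_comp_le σ _) hT
    · rw [hpt]
      show aeval _ (hmg d (F i)) = 0
      rw [hmg_one _ _ (hF i)]
      exact hyF i
    · rw [hpt, hGh1]
      exact hyG
    · have h1 : pt ι (homC (mask A)) (Fin.cons 1 T' : Fin (R + 1) → Qbar) ≠ 0 := by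
        rw [hpt]; exact cons_ne y
      exact ⟨h1, mk_congr (cons_ne y) h1 hpt.symm⟩
  refine (encard_le_mul _ _ (M0 ((d + 1) ^ (R + 1)) d (R + 1)) hcov fun A => ?_).trans ?_
  · refine le_trans (?_ : _ ≤ (Off0 ι P Gh ε (homC (mask A))).encard) ?_
    · rw [← (mk_cons_inj (L := L) (n := n)).encard_image]
      refine Set.encard_le_encard ?_
      rintro _ ⟨y, hy, rfl⟩
      exact hy
    obtain ⟨P', hP'1, hP'2⟩ := exists_few (homC (mask A)) P d hP
    have hsub : Off0 ι P Gh ε (homC (mask A)) ⊆ Off0 ι P' Gh ε (homC (mask A)) := by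
      rintro p ⟨t, h1, h2, h3, h4, h5⟩
      refine ⟨t, h1, h2, fun a => ?_, h4, h5⟩
      rcases hP'1 a with h | ⟨i, h⟩
      · rw [h, map_zero]
      · rw [h]
        exact h3 i
    refine (Set.encard_le_encard hsub).trans ?_
    refine card_off0 P' d hd (fun a => ?_) Gh ι (homC (mask A)) fun s l hz hc => ?_
    · rcases hP'1 a with h | ⟨i, h⟩
      · exact ⟨0, Nat.zero_le _, by rw [h]; exact MvPolynomial.isHomogeneous_zero _ _ _⟩
      · rw [h]
        exact hP i
    have hz' : ∀ i, aeval (cur (fun j i => s j * homC (mask A) j i) l) (P i) = 0 := fun i =>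
      cur_span s (homC (mask A)) l P' hz (P i) (hP'2 i)
    by_cases hs : s 0 = 0
    · show aeval _ (X 0 * hmg G.totalDegree G) = 0
      rw [map_mul, aeval_X, Fin.sum_univ_succ]
      have h1 : ∀ j : Fin R, s j.succ * homC (mask A) j.succ 0 = 0 := fun j => by simp [homC]
      rw [hs, zero_mul, Finset.sum_eq_zero fun j _ => h1 j, add_zero, zero_mul]
    · let c : Fin R → Fin n → L := fun j a => s j.succ / s 0 * mask A j a
      have hsc : (fun j i => s j * homC (mask A) j i) = fun j i => s 0 * homC c j i := by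
        funext j i
        refine Fin.cases ?_ (fun j => ?_) j
        · refine Fin.cases ?_ (fun i => ?_) i
          · simp [homC]
          · simp [homC]
        · refine Fin.cases ?_ (fun i => ?_) i
          · simp [homC]
          · simp only [homC, Fin.cons_succ, c]
            field_simp
      have hsj : ∀ i, ∑ j, s j * homC (mask A) j i = s 0 * ∑ j, homC c j i := by
        intro i
        rw [Finset.mul_sum]
        exact Finset.sum_congr rfl fun j _ => congrFun (congrFun hsc j) i
      have hC : Polynomial.C (s 0) ≠ 0 := by rwa [Ne, Polynomial.C_eq_zero]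
      rw [hsc, cur_smul] at hc hz'
      have h1 : aeval (fun i => ∑ j, c j i) G = 0 := by
        refine hG c l (fun i => ?_) ?_
        · have h2 := hz' i
          rw [aeval_homog (hmg_homog d _ (hF i)) (Polynomial.C (s 0)) (cur (homC c) l)] at h2
          exact (mul_eq_zero.1 h2).resolve_left (pow_ne_zero _ hC)
        · obtain ⟨i, i', h3⟩ := hc
          refine ⟨i, i', fun h4 => h3 ?_⟩
          rw [hsj, hsj, Polynomial.C_mul, Polynomial.C_mul]
          linear_combination (Polynomial.C (s 0)) ^ 2 * h4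
      have h2 : (fun i => ∑ j, s j * homC (mask A) j i) =
          fun i => s 0 * (Fin.cons 1 (fun a => ∑ j, c j a) : Fin (n + 1) → L) i := by
        funext i
        rw [hsj, congrFun (homC_sum c) i]
      rw [h2, aeval_homog hGh, hGh1, h1, mul_zero]
  · rw [Nat.card_eq_fintype_card, Fintype.card_finset, Fintype.card_fin]

/-- the value of a polynomial at an affine combination -/
theorem polar_aff {k : Type} [Field k] {n r : ℕ} (g : MvPolynomial (Fin n) k) {δ : ℕ}
    (hg : g.totalDegree ≤ δ) (L : Type) [Field L] [Algebra k L] (v : Fin r → Fin n → L) :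
    ∃ w : (Fin δ → Fin (r + 1)) → L, ∀ t : Fin r → L,
      aeval (fun a => ∑ j, t j * v j a) g =
        ∑ f : Fin δ → Fin (r + 1), (∏ a, (Fin.cons 1 t : Fin (r + 1) → L) (f a)) * w f := by
  obtain ⟨w, hw⟩ := polar (hmg δ g) (hmg_homog δ g hg) L (homC v)
  refine ⟨w, fun t => ?_⟩
  rw [← hw (Fin.cons 1 t), sum_homC, hmg_one _ _ hg]

end Pool.Agent.V11197.SM
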