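import Mathlib

/-!
Curves with finitely many points for infinitely many parameters.
-/

set_option autoImplicit false

namespace Pool.Agent.V11197.SM

variable {m : ℕ}

/-- a curve with finitely many points for infinitely many parameters is constant -/
theorem curve_const {K : Type} [Field K] {p : Fin (m + 1) → Polynomial K} {A : Set K}
    (hA : A.Infinite) {q : Polynomial K} (hq : q ≠ 0)
    (hne : ∀ z, q.eval z ≠ 0 → (fun j => (p j).eval z) ≠ 0)
    (hfin : {P : Projectivization K (Fin (m + 1) → K) | ∃ z ∈ A, q.eval z ≠ 0 ∧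
      ∃ h0 : (fun j => (p j).eval z) ≠ 0, P = Projectivization.mk K _ h0}.Finite) :
    ∀ z w j l, (p j).eval z * (p l).eval w = (p l).eval z * (p j).eval w := by
  classical
  let S : Set K := {z | z ∈ A ∧ q.eval z ≠ 0}
  have hSi : S.Infinite := by
    intro hS
    apply hA
    refine (hS.union q.roots.toFinset.finite_toSet).subset ?_
    intro z hz
    by_cases h2 : q.eval z = 0
    · right
      rw [Finset.mem_coe, Multiset.mem_toFinset, Polynomial.mem_roots hq]
      exact h2
    · exact Or.inl ⟨hz, h2⟩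
  let f : K → Projectivization K (Fin (m + 1) → K) := fun z =>
    if h0 : (fun j => (p j).eval z) ≠ 0 then Projectivization.mk K _ h0 else
      Projectivization.mk K (fun _ => 1) (fun h1 => one_ne_zero (congrFun h1 0))
  have hf : Set.MapsTo f S {P : Projectivization K (Fin (m + 1) → K) | ∃ z ∈ A, q.eval z ≠ 0 ∧
      ∃ h0 : (fun j => (p j).eval z) ≠ 0, P = Projectivization.mk K _ h0} := by
    intro z hz
    exact ⟨z, hz.1, hz.2, hne z hz.2, dif_pos (hne z hz.2)⟩
  obtain ⟨P, hP⟩ : ∃ P, (S ∩ f ⁻¹' {P}).Infinite := by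
    by_contra hcon
    push Not at hcon
    apply hSi
    refine (hfin.biUnion fun P _ => hcon P).subset fun h hh => ?_
    exact Set.mem_biUnion (hf hh) ⟨hh, rfl⟩
  obtain ⟨z0, hz0, hf0⟩ := hP.nonempty
  have hf0' : f z0 = P := hf0
  have hcr : ∀ z ∈ S ∩ f ⁻¹' {P}, ∀ j l,
      (p j).eval z * (p l).eval z0 = (p l).eval z * (p j).eval z0 := by
    rintro z ⟨hz, hfz⟩ j l
    have hfz' : f z = P := hfz
    have h1 : f z = f z0 := hfz'.trans hf0'.symm
    have h2 : f z = Projectivization.mk K _ (hne z hz.2) := dif_pos (hne z hz.2)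
    have h3 : f z0 = Projectivization.mk K _ (hne z0 hz0.2) := dif_pos (hne z0 hz0.2)
    rw [h2, h3, Projectivization.mk_eq_mk_iff'] at h1
    obtain ⟨a, ha⟩ := h1
    have h4 : a * (p j).eval z0 = (p j).eval z := congrFun ha j
    have h5 : a * (p l).eval z0 = (p l).eval z := congrFun ha l
    rw [← h4, ← h5]
    ring
  have hpoly : ∀ j l, p j * Polynomial.C ((p l).eval z0) = p l * Polynomial.C ((p j).eval z0) := by
    intro j l
    rw [← sub_eq_zero]
    by_contra hne0
    refine hP ((Finset.finite_toSet (p j * Polynomial.C ((p l).eval z0) -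
        p l * Polynomial.C ((p j).eval z0)).roots.toFinset).subset ?_)
    intro z hz
    rw [Finset.mem_coe, Multiset.mem_toFinset, Polynomial.mem_roots hne0]
    change Polynomial.eval _ _ = 0
    rw [Polynomial.eval_sub, Polynomial.eval_mul, Polynomial.eval_mul, Polynomial.eval_C,
      Polynomial.eval_C, hcr z hz j l, sub_self]
  obtain ⟨k0, hk0⟩ := Function.ne_iff.1 (hne z0 hz0.2)
  have hk0' : (p k0).eval z0 ≠ 0 := hk0
  have h1 : ∀ j s, (p j).eval s * (p k0).eval z0 = (p k0).eval s * (p j).eval z0 := by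
    intro j s
    have h2 := congrArg (Polynomial.eval s) (hpoly j k0)
    rwa [Polynomial.eval_mul, Polynomial.eval_mul, Polynomial.eval_C, Polynomial.eval_C] at h2
  intro z w j l
  have e1 := h1 j z
  have e2 := h1 l w
  have e3 := h1 l z
  have e4 := h1 j w
  have h2 : (p k0).eval z0 * (p k0).eval z0 *
      ((p j).eval z * (p l).eval w - (p l).eval z * (p j).eval w) = 0 := by
    have : (p k0).eval z0 * (p k0).eval z0 *
        ((p j).eval z * (p l).eval w - (p l).eval z * (p j).eval w) =
        ((p j).eval z * (p k0).eval z0) * ((p l).eval w * (p k0).eval z0) -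
        ((p l).eval z * (p k0).eval z0) * ((p j).eval w * (p k0).eval z0) := by ring
    rw [this, e1, e2, e3, e4]
    ring
  exact sub_eq_zero.1 ((mul_eq_zero.1 h2).resolve_left (mul_ne_zero hk0' hk0'))

end Pool.Agent.V11197.SM
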